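import Mathlib

set_option autoImplicit false

namespace Pool.Agent.Results.MP_c522d4_al.Counter

open Polynomial RegularWreathProduct commutatorElement

/-- the irreducible complex characters of `G` -/
def Irr (G : Type) [Group G] : Set (G → ℂ) :=
  {χ | ∃ (n : ℕ) (ρ : Representation ℂ G (Fin n → ℂ)), ρ.IsIrreducible ∧ χ = ρ.character}

/-- the proportion of zero entries of the character table -/
noncomputable def zeroProp (G : Type) [Group G] : ℝ :=
  Nat.card {z : ConjClasses G × Irr G // ∃ g, ConjClasses.mk g = z.1 ∧ z.2.1 g = 0} /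
    (Nat.card (ConjClasses G) * Nat.card (Irr G))

/-- the Fitting series: `F (i+1)` is generated by the normal subgroups that are nilpotent modulo `F i` -/
def F (G : Type) [Group G] : ℕ → Subgroup G
  | 0 => ⊥
  | i + 1 => sSup {N | N.Normal ∧ ∃ k, N.lowerCentralSeries k ≤ F G i}

lemma F_step {G H : Type} [Group G] [Group H] (π : G →* H) (hπ : Function.Surjective π) (h : F G 1 ≤ π.ker) (i : ℕ) :
    F G (i + 1) ≤ (F H i).comap π := by
  induction i with
  | zero => exact h
  | succ i ih =>
    refine sSup_le fun N ⟨hN, k, hk⟩ => Subgroup.map_le_iff_le_comap.1 (le_sSup ⟨hN.map π hπ, k, ?_⟩)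
    rw [← Subgroup.map_lowerCentralSeries]
    exact Subgroup.map_le_iff_le_comap.2 (hk.trans ih)

lemma roots_sum {p : ℕ} (hp : p.Prime) (R : Multiset ℂ) (h : ∀ μ ∈ R, μ ^ p = 1) (z : R.sum = 0) : p ∣ R.card := by
  have := Fact.mk hp
  have hζ := Complex.isPrimitiveRoot_exp p hp.ne_zero
  obtain ⟨q, a, b⟩ : ∃ q : ℤ[X], aeval (Complex.exp (2 * Real.pi * Complex.I / p)) q = R.sum ∧ q.eval 1 = R.card := by
    clear z
    induction R using Multiset.induction with
    | empty => exact ⟨0, by simp⟩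
    | cons μ R ih =>
      obtain ⟨q, a, b⟩ := ih fun ν hν => h ν (by simp [hν])
      obtain ⟨i, -, e⟩ := hζ.eq_pow_of_pow_eq_one (h μ (by simp))
      exact ⟨X ^ i + q, by simp [a, e], by simp [b, add_comm]⟩
  have d := eval_dvd (x := 1) (cyclotomic_eq_minpoly hζ hp.pos ▸
    minpoly.isIntegrallyClosed_dvd (hζ.isIntegral hp.pos) (a.trans z))
  rw [eval_one_cyclotomic_prime, b] at d
  exact_mod_cast d

lemma char_ne {G H : Type} [Group G] [Group H] [Fintype H] (π : G →* H) (s : H → G) (hs : ∀ h, π (s h) = h)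
    (comm : ∀ a b, π a = 1 → π b = 1 → a * b = b * a) {p : ℕ} (hp : p.Prime) (lt : Fintype.card H < p)
    {χ : G → ℂ} (hχ : χ ∈ Irr G) (a : G) (ha : π a = 1) (pw : a ^ p = 1) : χ a ≠ 0 := by
  obtain ⟨n, ρ, irr, rfl⟩ := hχ
  have nt : (⊤ : Submodule ℂ (Fin n → ℂ)) ≠ ⊥ := fun c => (bot_ne_top (α := Subrepresentation ρ))
    (Subrepresentation.toSubmodule_injective (c.symm :))
  obtain ⟨W, ⟨W0, hW⟩, mn⟩ := IsArtinian.set_has_minimal (R := ℂ) (M := Fin n → ℂ)
    {W | W ≠ ⊥ ∧ ∀ a, π a = 1 → ∀ w ∈ W, ρ a w ∈ W} ⟨⊤, nt, fun _ _ _ _ => trivial⟩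
  have sc : ∀ a, π a = 1 → ∃ μ : ℂ, ∀ w ∈ W, ρ a w = μ • w := fun a ha => by
    have := Submodule.nontrivial_iff_ne_bot.2 W0
    obtain ⟨μ, hμ⟩ := Module.End.exists_eigenvalue (LinearMap.restrict (ρ a) (hW a ha))
    obtain ⟨v, hv⟩ := hμ.exists_hasEigenvector
    have := mn (W ⊓ Module.End.eigenspace (ρ a) μ) ⟨(Submodule.ne_bot_iff _).2 ⟨v, ⟨v.2,
      Module.End.mem_eigenspace_iff.2 (congrArg Subtype.val hv.apply_eq_smul)⟩, by simpa using hv.2⟩,
      fun b hb w hw => ⟨hW b hb w hw.1, Module.End.mem_eigenspace_iff.2 <| by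
        rw [← Module.End.mul_apply, ← map_mul, comm a b ha hb, map_mul, Module.End.mul_apply,
          Module.End.mem_eigenspace_iff.1 hw.2, map_smul]⟩⟩
    exact ⟨μ, fun w hw => Module.End.mem_eigenspace_iff.1
      ((inf_eq_left.1 (inf_le_left.eq_of_not_lt this)) hw)⟩
  obtain ⟨w, hw, w0⟩ := (Submodule.ne_bot_iff _).1 W0
  let U : Subrepresentation ρ := ⟨Submodule.span ℂ (Set.range fun h => ρ (s h) w), fun g v hv => by
    refine Submodule.mem_comap.1 ((Submodule.span_le (p := Submodule.comap (ρ g) _)).2 ?_ hv)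
    rintro _ ⟨h, rfl⟩
    obtain ⟨μ, e⟩ := sc ((s (π g * h))⁻¹ * (g * s h)) (by simp [hs])
    have : ρ g (ρ (s h) w) = μ • ρ (s (π g * h)) w := by
      rw [← map_smul, ← e w hw, ← Module.End.mul_apply, ← Module.End.mul_apply, ← map_mul, ← map_mul,
        mul_inv_cancel_left]
    exact Submodule.mem_comap.2 (this ▸ Submodule.smul_mem _ μ (Submodule.subset_span ⟨_, rfl⟩))⟩
  have hU : U = ⊤ := (eq_bot_or_eq_top U).resolve_left fun c => w0 <| by
    have : ρ (s 1) w ∈ U.toSubmodule := Submodule.subset_span ⟨1, rfl⟩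
    rw [c] at this
    have := congrArg (ρ (s 1)⁻¹) (show ρ (s 1) w = 0 from this)
    rwa [← Module.End.mul_apply, ← map_mul, inv_mul_cancel, map_one, map_zero] at this
  have le : n ≤ Fintype.card H := by
    have := finrank_range_le_card (R := ℂ) fun h => ρ (s h) w
    rwa [Set.finrank, show Submodule.span ℂ _ = ⊤ from congrArg Subrepresentation.toSubmodule hU, finrank_top,
      Module.finrank_fin_fun] at this
  have pos : 0 < n := Nat.pos_of_ne_zero fun c => by subst c; exact w0 (Subsingleton.elim _ _)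
  intro c
  rw [Representation.character, Module.End.trace_eq_sum_roots_charpoly_of_splits (IsAlgClosed.splits _)] at c
  have := roots_sum hp _ (fun μ hμ => by
    obtain ⟨v, hv⟩ := ((Module.End.hasEigenvalue_iff_isRoot_charpoly _ _).2 (isRoot_of_mem_roots hμ)).exists_hasEigenvector
    have := hv.pow_apply p
    rw [← map_pow, pw, map_one, Module.End.one_apply] at this
    exact smul_left_injective ℂ hv.2 (this.symm.trans (one_smul _ _).symm)) c
  rw [IsAlgClosed.card_roots_eq_natDegree, LinearMap.charpoly_natDegree, Module.finrank_fin_fun] at this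
  exact absurd (Nat.le_of_dvd pos this) (by omega)

variable {H : Type} [Group H] {p : ℕ}

/-- the base group of the wreath product -/
def b : Multiplicative (H → ZMod p) →* Multiplicative (ZMod p) ≀ᵣ H where
  toFun f := ⟨fun y => .ofAdd (f.toAdd y), 1⟩
  map_one' := rfl
  map_mul' f g := by ext <;> simp

lemma base (x : Multiplicative (ZMod p) ≀ᵣ H) (h : rightHom x = 1) : ∃ f, b f = x :=
  ⟨.ofAdd fun y => (x.left y).toAdd, RegularWreathProduct.ext rfl h.symm⟩

lemma conj (x : Multiplicative (ZMod p) ≀ᵣ H) (f : H → ZMod p) :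
    x * b (.ofAdd f) * x⁻¹ = b (.ofAdd fun y => f (x.right⁻¹ * y)) := by
  ext <;> simp [b]

lemma binj : Function.Injective (b (H := H) (p := p)) := fun _ _ e =>
  Multiplicative.toAdd.injective <| funext fun y => congrFun (congrArg RegularWreathProduct.left e) y

lemma fit [Fintype H] (hp : p.Prime) (lt : Fintype.card H < p) :
    F (Multiplicative (ZMod p) ≀ᵣ H) 1 ≤ rightHom.ker := by
  classical
  have := Fact.mk hp
  refine sSup_le fun N ⟨hN, k, hk⟩ x hx => ?_
  let τ : Module.End (ZMod p) (H → ZMod p) := LinearMap.funLeft _ _ fun y => x.right⁻¹ * y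
  have c : ∀ f, ⁅b (.ofAdd f), x⁆ = b (.ofAdd ((1 - τ) f)) := fun f => by
    rw [commutatorElement_def, mul_assoc, mul_assoc, ← mul_assoc x, ← map_inv, ← ofAdd_neg, conj, ← map_mul,
      ← ofAdd_add, LinearMap.sub_apply, sub_eq_add_neg]
    rfl
  have m : ∀ j f, b (.ofAdd (((1 - τ) ^ (j + 1)) f)) ∈ N.lowerCentralSeries j := fun j f => by
    induction j with
    | zero =>
      rw [zero_add, pow_one, ← c, commutatorElement_def]
      exact N.mul_mem (hN.conj_mem x hx _) (N.inv_mem hx)
    | succ j ih =>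
      rw [pow_succ', Module.End.mul_apply, ← c]
      exact Subgroup.commutator_mem_commutator ih hx
  have z : (1 - τ) ^ (k + 1) = 0 := LinearMap.ext fun f => binj ((hk (m k f)).trans (map_one b).symm)
  have : CharP (Module.End (ZMod p) (H → ZMod p)) p := charP_of_injective_algebraMap' (ZMod p) p
  have t : ∀ j f y, (τ ^ j) f y = f (x.right⁻¹ ^ j * y) := fun j f => by
    induction j with
    | zero => simp
    | succ j ih => intro y; rw [pow_succ', Module.End.mul_apply, pow_succ, mul_assoc, ← ih]; rfl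
  have e := pow_eq_zero_of_le (Nat.lt_pow_self hp.one_lt (n := k)) z
  rw [sub_pow_char_pow_of_commute _ _ (Commute.one_left τ), one_pow, sub_eq_zero] at e
  have := t (p ^ k) (Pi.single 1 1) 1
  rw [← e, mul_one, Module.End.one_apply, Pi.single_eq_same, Pi.single_apply] at this
  have o : x.right ^ p ^ k = 1 := by
    by_contra c
    rw [if_neg (by simpa using c)] at this
    exact one_ne_zero this
  exact orderOf_eq_one_iff.1 (Nat.eq_one_of_dvd_coprimes (Nat.Coprime.pow_left k
    ((Nat.coprime_of_lt_prime Fintype.card_ne_zero lt hp))) (orderOf_dvd_of_pow_eq_one o) orderOf_dvd_card)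

lemma count [Fintype H] (hp : p.Prime) (lt : Fintype.card H < p) :
    zeroProp (Multiplicative (ZMod p) ≀ᵣ H) ≤ Fintype.card H ^ 2 / p := by
  classical
  have := Fact.mk hp
  let G := Multiplicative (ZMod p) ≀ᵣ H
  show zeroProp G ≤ _
  have := Fintype.ofFinite G
  have := Fintype.ofFinite (ConjClasses G)
  let O := (Finset.univ.filter fun x : G => x.right ≠ 1).image ConjClasses.mk
  have h1 : p * O.card ≤ p ^ Fintype.card H * Fintype.card H := by
    refine (Finset.mul_card_image_le_card _ p fun c hc => ?_).trans ((Finset.card_le_univ _).trans_eq ?_)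
    · obtain ⟨x, hx, rfl⟩ := Finset.mem_image.1 hc
      have x1 : x.right⁻¹ ≠ 1 := by simpa using hx
      refine (ZMod.card p).symm.trans_le (Finset.card_le_card_of_injOn
        (fun c => b (.ofAdd (Pi.single 1 c)) * x * (b (.ofAdd (Pi.single 1 c)))⁻¹) (fun c _ => ?_) fun c _ d _ e => ?_)
      · simp only [Finset.coe_filter, Finset.mem_filter, Finset.mem_univ, true_and, Set.mem_ofPred_eq]
        exact ⟨by simpa [b, G] using x1, ConjClasses.mk_eq_mk_iff_isConj.2 (isConj_iff.2 ⟨_, rfl⟩).symm⟩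
      · simpa [b, x1, G] using congrFun (congrArg RegularWreathProduct.left e) 1
    · rw [← Nat.card_eq_fintype_card, RegularWreathProduct.card]; simp
  have h2 : p ^ Fintype.card H ≤ Fintype.card H * Fintype.card (ConjClasses G) := by
    refine (show _ = (Finset.univ : Finset (H → ZMod p)).card by simp).trans_le
      ((Finset.card_le_mul_card_image (f := fun f => ConjClasses.mk (b (.ofAdd f))) _ (Fintype.card H)
        fun c hc => ?_).trans (Nat.mul_le_mul_left _ (Finset.card_le_univ _)))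
    obtain ⟨f, -, rfl⟩ := Finset.mem_image.1 hc
    refine Finset.card_le_card_of_surjOn (s := Finset.univ) (fun h y => f (h⁻¹ * y)) fun g hg => ?_
    obtain ⟨x, hx⟩ := isConj_iff.1 (ConjClasses.mk_eq_mk_iff_isConj.1 (Finset.mem_filter.1 hg).2).symm
    exact ⟨x.right, by simp, binj ((conj x f).symm.trans hx)⟩
  cases finite_or_infinite (Irr G)
  swap
  · rw [zeroProp, Nat.card_eq_zero_of_infinite (α := Irr G)]; simp; positivity
  have h3 : Nat.card {z : ConjClasses G × Irr G // ∃ g, ConjClasses.mk g = z.1 ∧ z.2.1 g = 0} ≤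
      O.card * Nat.card (Irr G) := by
    rw [← Nat.card_eq_finsetCard, ← Nat.card_prod]
    refine Nat.card_le_card_of_injective (fun z => (⟨z.1.1, ?_⟩, z.1.2)) fun z w e => Subtype.ext (Prod.ext
      (congrArg (·.1.1) e) (congrArg (·.2) e))
    obtain ⟨g, e, g0⟩ := z.2
    refine Finset.mem_image.2 ⟨g, Finset.mem_filter.2 ⟨by simp, fun c => ?_⟩, e⟩
    obtain ⟨f, rfl⟩ := base g c
    refine char_ne rightHom inl fun_id (fun x y hx hy => ?_) hp lt z.1.2.2 (b f) c ?_ g0
    · obtain ⟨f, rfl⟩ := base x hx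
      obtain ⟨g, rfl⟩ := base y hy
      rw [← map_mul, mul_comm, map_mul]
    · rw [← map_pow, show f ^ p = 1 from Multiplicative.toAdd.injective (by ext; simp), map_one]
  have kp : (0 : ℝ) < Fintype.card (ConjClasses G) := by exact_mod_cast Fintype.card_pos
  have pp : (0 : ℝ) < p := by exact_mod_cast hp.pos
  refine div_le_of_le_mul₀ (by positivity) (by positivity) ((Nat.cast_le.2 h3).trans ?_)
  rw [Nat.cast_mul, ← mul_assoc, Nat.card_eq_fintype_card (α := ConjClasses G)]
  refine mul_le_mul_of_nonneg_right ?_ (by positivity)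
  rw [div_mul_eq_mul_div, le_div_iff₀ pp]
  exact_mod_cast (mul_comm _ _).trans_le (h1.trans ((Nat.mul_le_mul_right _ h2).trans_eq (by ring)))

theorem result (n : ℕ) (ε : ℝ) (hε : 0 < ε) : ∃ (G : Type) (_ : Group G), Finite G ∧ Group.IsSolvable G ∧
    (∀ i ≤ n, F G i ≠ ⊤) ∧ zeroProp G < ε := by
  have step : ∀ (n : ℕ) (H : Type) [Group H], Finite H → Group.IsSolvable H → (∀ i < n, F H i ≠ ⊤) →
      ∃ (G : Type) (_ : Group G), Finite G ∧ Group.IsSolvable G ∧ (∀ i ≤ n, F G i ≠ ⊤) ∧ zeroProp G < ε := by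
    intro n H _ _ _ h
    have := Fintype.ofFinite H
    obtain ⟨m, hm⟩ := exists_nat_gt (Fintype.card H ^ 2 / ε)
    obtain ⟨p, le, hp⟩ := Nat.exists_infinite_primes (m + Fintype.card H + 1)
    have := Fact.mk hp
    have sj : Function.Surjective (rightHom : Multiplicative (ZMod p) ≀ᵣ H →* H) := fun y => ⟨_, fun_id y⟩
    refine ⟨Multiplicative (ZMod p) ≀ᵣ H, inferInstance, inferInstance,
      Group.isSolvable_of_ker_le_range b rightHom base,
      fun i hi c => ?_, (count hp (by omega)).trans_lt ?_⟩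
    · cases i with
      | zero =>
        have : b (.ofAdd (1 : H → ZMod p)) ∈ F _ 0 := c ▸ trivial
        exact one_ne_zero (congrFun (binj (this.trans (map_one b).symm)) 1 : (1 : ZMod p) = 0)
      | succ i =>
        refine h i hi (eq_top_iff.2 fun y _ => ?_)
        simpa using F_step _ sj (fit hp (by omega)) i (c ▸ trivial : inl y ∈ _)
    · rw [div_lt_iff₀ hε] at hm
      rw [div_lt_iff₀ (by exact_mod_cast hp.pos), mul_comm]
      exact hm.trans_le (mul_le_mul_of_nonneg_right (by exact_mod_cast (by omega)) hε.le)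
  induction n with
  | zero => exact step 0 Unit inferInstance inferInstance (by simp)
  | succ n ih =>
    obtain ⟨H, _, a, b, c, -⟩ := ih
    exact step _ H a b fun i hi => c i (by omega)

end Pool.Agent.Results.MP_c522d4_al.Counter
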